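import Mathlib
import Pool.Agent.Hhelper79.Seam.Base
import Pool.Agent.Hhelper79.Seam.Generic

/-!
# Convex polygons as intersections of half planes (MP_6cce73_lc)
-/

set_option autoImplicit false

namespace Pool.Agent.Hhelper79.SeamP

open Set Filter Topology Metric Pool.Agent.Hhelper79.Seam

/-- the set cut out by finitely many affine inequalities -/
def HSet {ι : Type*} (a : ι → E2 →ᵃ[ℝ] ℝ) : Set E2 := {x | ∀ i, 0 ≤ a i x}

theorem mem_HSet {ι : Type*} {a : ι → E2 →ᵃ[ℝ] ℝ} {x : E2} : x ∈ HSet a ↔ ∀ i, 0 ≤ a i x :=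
  Iff.rfl

theorem aff_cont (a : E2 →ᵃ[ℝ] ℝ) : Continuous a := a.continuous_of_finiteDimensional

theorem isClosed_HSet {ι : Type*} (a : ι → E2 →ᵃ[ℝ] ℝ) : IsClosed (HSet a) := by
  have h : HSet a = ⋂ i, {x | 0 ≤ a i x} := by
    ext x
    simp [mem_HSet]
  rw [h]
  exact isClosed_iInter fun i => isClosed_le continuous_const (aff_cont _)

theorem aff_lineMap (a : E2 →ᵃ[ℝ] ℝ) (x y : E2) (r : ℝ) :
    a (AffineMap.lineMap x y r) = (1 - r) * a x + r * a y := by
  rw [a.apply_lineMap, AffineMap.lineMap_apply_module]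
  simp [smul_eq_mul]

theorem convex_HSet {ι : Type*} (a : ι → E2 →ᵃ[ℝ] ℝ) : Convex ℝ (HSet a) := by
  rw [convex_iff_segment_subset]
  rintro x hx y hy z hz
  rw [segment_eq_image_lineMap] at hz
  obtain ⟨r, ⟨h0, h1⟩, rfl⟩ := hz
  intro i
  rw [aff_lineMap]
  have h2 := mul_nonneg (sub_nonneg.2 h1) (hx i)
  have h3 := mul_nonneg h0 (hy i)
  linarith

/-- a bounded set cut out by finitely many affine inequalities is a convex polygon -/
theorem isPoly_HSet {ι : Type*} [Finite ι] (a : ι → E2 →ᵃ[ℝ] ℝ)
    (hb : Bornology.IsBounded (HSet a)) : IsPoly (HSet a) := by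
  have hc : IsCompact (HSet a) := Metric.isCompact_of_isClosed_isBounded (isClosed_HSet a) hb
  have hfin : ((HSet a).extremePoints ℝ).Finite := by
    apply Set.Finite.of_finite_image (f := fun x => {i | a i x = 0}) (Set.toFinite _)
    intro x hx y hy hxy
    simp only at hxy
    by_contra hne
    -- move slightly beyond `x` away from `y`
    have hxH : x ∈ HSet a := hx.1
    have hyH : y ∈ HSet a := hy.1
    have hev : ∀ i, ∀ᶠ t : ℝ in 𝓝 0, 0 ≤ a i (AffineMap.lineMap x y t) := by
      intro i
      by_cases hi : a i x = 0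
      · have hi' : a i y = 0 := by
          have : i ∈ {i | a i x = 0} := hi
          rw [hxy] at this
          exact this
        refine Filter.Eventually.of_forall fun t => ?_
        rw [aff_lineMap, hi, hi']
        simp
      · have hpos : 0 < a i x := lt_of_le_of_ne (hxH i) (Ne.symm hi)
        have hcont : Continuous fun t : ℝ => a i (AffineMap.lineMap x y t) :=
          (aff_cont _).comp AffineMap.lineMap_continuous
        have h1 : ∀ᶠ t : ℝ in 𝓝 0, 0 < a i (AffineMap.lineMap x y t) := by
          apply hcont.continuousAt.eventually (lt_mem_nhds _)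
          simpa using hpos
        exact h1.mono fun t ht => ht.le
    rw [← Filter.eventually_all] at hev
    obtain ⟨ε, hε, hball⟩ := Metric.eventually_nhds_iff.1 hev
    have hz : AffineMap.lineMap x y (-(ε / 2)) ∈ HSet a := by
      intro i
      apply hball
      rw [Real.dist_eq, sub_zero, abs_neg, abs_of_pos (by linarith)]
      linarith
    have hseg : x ∈ openSegment ℝ y (AffineMap.lineMap x y (-(ε / 2))) := by
      rw [openSegment_eq_image_lineMap]
      refine ⟨1 / (1 + ε / 2), ⟨by positivity, ?_⟩, ?_⟩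
      · rw [div_lt_one (by linarith)]
        linarith
      · rw [AffineMap.lineMap_apply_module, AffineMap.lineMap_apply_module]
        have h2 : (1 + ε / 2) ≠ 0 := by linarith
        have h3 : (1 - 1 / (1 + ε / 2)) + 1 / (1 + ε / 2) * (-(ε / 2)) = 0 := by
          field_simp
          ring
        have h4 : 1 / (1 + ε / 2) * (1 - -(ε / 2)) = 1 := by
          field_simp
          ring
        calc (1 - 1 / (1 + ε / 2)) • y +
              (1 / (1 + ε / 2)) • ((1 - -(ε / 2)) • x + (-(ε / 2)) • y)
            = ((1 - 1 / (1 + ε / 2)) + 1 / (1 + ε / 2) * (-(ε / 2))) • y +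
              (1 / (1 + ε / 2) * (1 - -(ε / 2))) • x := by module
          _ = x := by rw [h3, h4]; simp
    have h5 := mem_extremePoints.1 hx
    have h6 := h5.2 y hyH _ hz hseg
    exact hne h6.1.symm
  refine ⟨hfin.toFinset, ?_⟩
  rw [Set.Finite.coe_toFinset]
  have h1 := closure_convexHull_extremePoints hc (convex_HSet a)
  rw [(hfin.isCompact_convexHull ℝ).isClosed.closure_eq] at h1
  exact h1.symm

/-- the affine function vanishing on the line through `p` and `q` -/
noncomputable def side (p q : E2) : E2 →ᵃ[ℝ] ℝ where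
  toFun x := (x 0 - p 0) * (q 1 - p 1) - (x 1 - p 1) * (q 0 - p 0)
  linear :=
    { toFun := fun v => v 0 * (q 1 - p 1) - v 1 * (q 0 - p 0)
      map_add' := fun v w => by simp only [PiLp.add_apply]; ring
      map_smul' := fun c v => by
        simp only [PiLp.smul_apply, smul_eq_mul, RingHom.id_apply]
        ring }
  map_vadd' x v := by
    simp only [vadd_eq_add, PiLp.add_apply, LinearMap.coe_mk, AddHom.coe_mk]
    ring

theorem side_apply (p q x : E2) :
    side p q x = (x 0 - p 0) * (q 1 - p 1) - (x 1 - p 1) * (q 0 - p 0) := rfl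

theorem side_linear_apply (p q v : E2) :
    (side p q).linear v = v 0 * (q 1 - p 1) - v 1 * (q 0 - p 0) := rfl

theorem e2_ext {x y : E2} (h0 : x 0 = y 0) (h1 : x 1 = y 1) : x = y := by
  ext i
  fin_cases i
  · exact h0
  · exact h1

theorem side_linear_ne {p q : E2} (h : p ≠ q) : (side p q).linear ≠ 0 := by
  intro h0
  apply h
  have h1 := LinearMap.congr_fun h0 (EuclideanSpace.single 0 1)
  have h2 := LinearMap.congr_fun h0 (EuclideanSpace.single 1 1)
  rw [side_linear_apply] at h1 h2
  simp at h1 h2
  apply e2_ext <;> linarith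

/-- a linear function which vanishes on `q - p` is a multiple of `side p q` -/
theorem eq_side {p q : E2} (h : p ≠ q) (f : E2 →ₗ[ℝ] ℝ) (hf : f p = f q) :
    ∃ l : ℝ, ∀ x, f x - f p = l * side p q x := by
  have hx : ∀ v : E2, f v = v 0 * f (EuclideanSpace.single 0 1) +
      v 1 * f (EuclideanSpace.single 1 1) := by
    intro v
    have : v = v 0 • EuclideanSpace.single 0 (1 : ℝ) + v 1 • EuclideanSpace.single 1 (1 : ℝ) := by
      apply e2_ext <;> simp
    conv_lhs => rw [this]
    rw [map_add, map_smul, map_smul, smul_eq_mul, smul_eq_mul]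
  set A := f (EuclideanSpace.single 0 1) with hA
  set B := f (EuclideanSpace.single 1 1) with hB
  have h1 : (q 0 - p 0) * A + (q 1 - p 1) * B = 0 := by
    rw [hx p, hx q] at hf
    linarith
  by_cases hq : q 1 - p 1 = 0
  · have hq0 : q 0 - p 0 ≠ 0 := by
      intro h0
      apply h
      apply e2_ext <;> linarith
    have hA0 : A = 0 := by
      rw [hq, zero_mul, add_zero] at h1
      exact (mul_eq_zero.1 h1).resolve_left hq0
    refine ⟨-B / (q 0 - p 0), fun x => ?_⟩
    rw [hx x, hx p, side_apply, hq, hA0]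
    field_simp
    ring
  · refine ⟨A / (q 1 - p 1), fun x => ?_⟩
    have hB' : B = -(q 0 - p 0) * A / (q 1 - p 1) := by
      rw [eq_div_iff hq]
      linarith
    rw [hx x, hx p, side_apply, hB']
    field_simp
    ring

theorem side_swap (p q x : E2) : side q p x = -side p q x := by
  rw [side_apply, side_apply]
  ring

theorem lin_line (x r : E2) : Lin (range (AffineMap.lineMap x r : ℝ → E2)) := lin_range x r

theorem isClosed_line (a p : E2) : IsClosed (range (AffineMap.lineMap a p : ℝ → E2)) := by
  have h1 := (Homeomorph.addRight a).isClosedMap _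
    (Submodule.closed_of_finiteDimensional (Submodule.span ℝ {p - a}))
  convert h1 using 1
  ext x
  simp only [mem_range, mem_image, SetLike.mem_coe, Submodule.mem_span_singleton,
    AffineMap.lineMap_apply, vsub_eq_sub, vadd_eq_add, Homeomorph.coe_addRight]
  constructor
  · rintro ⟨t, rfl⟩
    exact ⟨_, ⟨t, rfl⟩, rfl⟩
  · rintro ⟨_, ⟨t, rfl⟩, rfl⟩
    exact ⟨t, rfl⟩

/-- two different points of `s` on a supporting line -/
theorem exists_two {s : Finset E2} {y : E2} (hy : y ∈ convexHull ℝ (s : Set E2)) (hys : y ∉ s)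
    (f : E2 →ₗ[ℝ] ℝ) (hf : ∀ r ∈ s, f r ≤ f y) : ∃ p ∈ s, ∃ q ∈ s, p ≠ q ∧ f p = f y ∧ f q = f y := by
  classical
  rw [Finset.mem_convexHull'] at hy
  obtain ⟨w, hw0, hw1, hwy⟩ := hy
  have hsum : ∑ r ∈ s, w r * (f y - f r) = 0 := by
    have h1 : f y = ∑ r ∈ s, w r * f r := by
      conv_lhs => rw [← hwy]
      rw [map_sum]
      exact Finset.sum_congr rfl fun r _ => by rw [map_smul, smul_eq_mul]
    calc ∑ r ∈ s, w r * (f y - f r) = (∑ r ∈ s, w r) * f y - ∑ r ∈ s, w r * f r := by
          rw [Finset.sum_mul, ← Finset.sum_sub_distrib]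
          exact Finset.sum_congr rfl fun r _ => by ring
      _ = 0 := by rw [hw1, ← h1]; ring
  have hterm : ∀ r ∈ s, w r * (f y - f r) = 0 := by
    rw [← Finset.sum_eq_zero_iff_of_nonneg]
    · exact hsum
    · intro r hr
      exact mul_nonneg (hw0 r hr) (sub_nonneg.2 (hf r hr))
  have hval : ∀ r ∈ s, w r ≠ 0 → f r = f y := by
    intro r hr hwr
    have := (mul_eq_zero.1 (hterm r hr)).resolve_left hwr
    linarith
  have hex : ∃ p ∈ s, w p ≠ 0 := by
    by_contra hcon
    push Not at hcon
    rw [Finset.sum_eq_zero hcon] at hw1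
    exact zero_ne_one hw1
  obtain ⟨p, hp, hwp⟩ := hex
  by_contra hcon
  push Not at hcon
  have hall : ∀ q ∈ s, q ≠ p → w q = 0 := by
    intro q hq hqp
    by_contra hwq
    exact hcon p hp q hq (Ne.symm hqp) (hval p hp hwp) (hval q hq hwq)
  have h1 : ∑ r ∈ s, w r • r = w p • p :=
    Finset.sum_eq_single_of_mem p hp fun q hq hqp => by rw [hall q hq hqp, zero_smul]
  have h2 : ∑ r ∈ s, w r = w p :=
    Finset.sum_eq_single_of_mem p hp fun q hq hqp => hall q hq hqp
  apply hys
  rw [← hwy, h1, ← h2, hw1, one_smul]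
  exact hp

/-- a nondegenerate convex polygon is cut out by finitely many affine inequalities -/
theorem exists_HSet {C : Set E2} (hC : IsPoly C) (hne : (interior C).Nonempty) :
    ∃ (n : ℕ) (a : Fin n → E2 →ᵃ[ℝ] ℝ), (∀ i, (a i).linear ≠ 0) ∧ C = HSet a := by
  classical
  obtain ⟨s, rfl⟩ := hC
  set I : Finset (E2 × E2) := (s ×ˢ s).filter fun t => t.1 ≠ t.2 ∧ ∀ r ∈ s, 0 ≤ side t.1 t.2 r
    with hI
  have hIm : ∀ t : E2 × E2, t ∈ I ↔ (t.1 ∈ s ∧ t.2 ∈ s) ∧ t.1 ≠ t.2 ∧
      ∀ r ∈ s, 0 ≤ side t.1 t.2 r := by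
    intro t
    rw [hI, Finset.mem_filter, Finset.mem_product]
  let e := I.equivFin
  refine ⟨I.card, fun i => side (e.symm i).1.1 (e.symm i).1.2, fun i => ?_, ?_⟩
  · exact side_linear_ne ((hIm _).1 (e.symm i).2).2.1
  have hconv : Convex ℝ (convexHull ℝ (s : Set E2)) := convex_convexHull ℝ _
  have hclosed : IsClosed (convexHull ℝ (s : Set E2)) :=
    (s.finite_toSet.isCompact_convexHull ℝ).isClosed
  apply Set.Subset.antisymm
  · apply convexHull_min _ (convex_HSet _)
    intro r hr i
    exact ((hIm _).1 (e.symm i).2).2.2 r hr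
  · intro x hx
    by_contra hxC
    have hx' : ∀ t ∈ I, 0 ≤ side t.1 t.2 x := by
      intro t ht
      have := hx (e ⟨t, ht⟩)
      simpa using this
    -- a generic interior point
    obtain ⟨c, hc, hcs⟩ := exists_outside isOpen_interior hne
      (s.image fun r => range (AffineMap.lineMap x r : ℝ → E2))
      (by
        intro t ht
        obtain ⟨r, -, rfl⟩ := Finset.mem_image.1 ht
        exact isClosed_line x r)
      (by
        intro t ht
        obtain ⟨r, -, rfl⟩ := Finset.mem_image.1 ht
        exact (lin_line x r).interior_eq)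
    have hcC : c ∈ convexHull ℝ (s : Set E2) := interior_subset hc
    set A : Set ℝ := {t | t ∈ Icc (0 : ℝ) 1 ∧ AffineMap.lineMap c x t ∈ convexHull ℝ (s : Set E2)}
      with hA
    have hAc : IsCompact A := by
      have h1 : A = Icc 0 1 ∩ (fun t : ℝ => (AffineMap.lineMap c x t : E2)) ⁻¹'
          convexHull ℝ (s : Set E2) := rfl
      rw [h1]
      exact isCompact_Icc.inter_right (hclosed.preimage AffineMap.lineMap_continuous)
    have hAne : A.Nonempty := ⟨0, ⟨⟨le_rfl, zero_le_one⟩, by simpa using hcC⟩⟩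
    obtain ⟨t, htA, htmax⟩ := hAc.exists_isMaxOn hAne continuousOn_id
    obtain ⟨⟨ht0, ht1⟩, htC⟩ := htA
    have htmax' : ∀ t' ∈ A, t' ≤ t := fun t' ht' => htmax ht'
    have ht1' : t < 1 := by
      apply lt_of_le_of_ne ht1
      intro he
      rw [he, AffineMap.lineMap_apply_one] at htC
      exact hxC htC
    set y : E2 := AffineMap.lineMap c x t with hy
    have hyint : y ∉ interior (convexHull ℝ (s : Set E2)) := by
      intro hyi
      have hcont : Continuous fun t : ℝ => (AffineMap.lineMap c x t : E2) :=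
        AffineMap.lineMap_continuous
      have hev : ∀ᶠ t' in 𝓝 t, AffineMap.lineMap c x t' ∈ convexHull ℝ (s : Set E2) :=
        hcont.continuousAt.eventually (mem_interior_iff_mem_nhds.1 hyi)
      obtain ⟨ε, hε, hball⟩ := Metric.eventually_nhds_iff.1 hev
      have h1 : t + min (ε / 2) ((1 - t) / 2) ∈ A := by
        have h2 : 0 < min (ε / 2) ((1 - t) / 2) := lt_min (by linarith) (by linarith)
        have h3 : min (ε / 2) ((1 - t) / 2) ≤ ε / 2 := min_le_left _ _
        have h4 : min (ε / 2) ((1 - t) / 2) ≤ (1 - t) / 2 := min_le_right _ _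
        refine ⟨⟨by linarith, by linarith⟩, hball ?_⟩
        rw [Real.dist_eq, add_sub_cancel_left, abs_of_pos h2]
        linarith
      have h5 := htmax' _ h1
      have h2 : 0 < min (ε / 2) ((1 - t) / 2) := lt_min (by linarith) (by linarith)
      linarith
    have htpos : 0 < t := by
      apply lt_of_le_of_ne ht0
      intro he
      apply hyint
      rw [hy, ← he, AffineMap.lineMap_apply_zero]
      exact hc
    obtain ⟨f, hf⟩ := geometric_hahn_banach_open_point hconv.interior isOpen_interior hyint
    have hfC : ∀ r ∈ convexHull ℝ (s : Set E2), f r ≤ f y := by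
      intro r hr
      have h1 : r ∈ closure (interior (convexHull ℝ (s : Set E2))) := by
        rw [hconv.closure_interior_eq_closure_of_nonempty_interior ⟨c, hc⟩]
        exact subset_closure hr
      have h2 : closure (interior (convexHull ℝ (s : Set E2))) ⊆ {z | f z ≤ f y} :=
        closure_minimal (fun z hz => (hf z hz).le) (isClosed_le f.continuous continuous_const)
      exact h2 h1
    have hyv : f y = (1 - t) * f c + t * f x := by
      rw [hy, AffineMap.lineMap_apply_module, map_add, map_smul, map_smul, smul_eq_mul,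
        smul_eq_mul]
    have hfx : f y < f x := by
      have h1 := hf c hc
      nlinarith
    have hys : y ∉ s := by
      intro hys
      apply hcs _ (Finset.mem_image_of_mem _ hys)
      refine ⟨1 / (1 - t), ?_⟩
      have h1 : (1 - t) ≠ 0 := by linarith
      rw [hy, AffineMap.lineMap_apply_module, AffineMap.lineMap_apply_module]
      have h2 : (1 - 1 / (1 - t)) + 1 / (1 - t) * t = 0 := by
        field_simp
        ring
      have h3 : 1 / (1 - t) * (1 - t) = 1 := by
        field_simp
      calc (1 - 1 / (1 - t)) • x + (1 / (1 - t)) • ((1 - t) • c + t • x)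
          = ((1 - 1 / (1 - t)) + 1 / (1 - t) * t) • x + (1 / (1 - t) * (1 - t)) • c := by module
        _ = c := by rw [h2, h3]; simp
    obtain ⟨p, hp, q, hq, hpq, hfp, hfq⟩ := exists_two htC hys (f : E2 →ₗ[ℝ] ℝ)
      (fun r hr => hfC r (subset_convexHull ℝ _ hr))
    obtain ⟨l, hl⟩ := eq_side hpq (f : E2 →ₗ[ℝ] ℝ) (hfp.trans hfq.symm)
    have hfp' : f p = f y := hfp
    have hl' : ∀ z, f z - f y = l * side p q z := by
      intro z
      have := hl z
      rw [← hfp']
      exact this
    have hlx := hl' x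
    rcases lt_trichotomy l 0 with hlt | hlt | hlt
    · have h1 : (p, q) ∈ I := by
        rw [hIm]
        refine ⟨⟨hp, hq⟩, hpq, fun r hr => ?_⟩
        have h2 := hl' r
        have h3 := hfC r (subset_convexHull ℝ _ hr)
        by_contra hneg
        push Not at hneg
        have h4 : 0 < l * side p q r := mul_pos_of_neg_of_neg hlt hneg
        linarith
      have h2 := hx' _ h1
      have h3 : l * side p q x ≤ 0 := mul_nonpos_of_nonpos_of_nonneg hlt.le h2
      linarith
    · rw [hlt, zero_mul] at hlx
      linarith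
    · have h1 : (q, p) ∈ I := by
        rw [hIm]
        refine ⟨⟨hq, hp⟩, hpq.symm, fun r hr => ?_⟩
        simp only
        rw [side_swap]
        have h2 := hl' r
        have h3 := hfC r (subset_convexHull ℝ _ hr)
        by_contra hneg
        push Not at hneg
        have h4 : 0 < l * side p q r := mul_pos hlt (by linarith)
        linarith
      have h2 := hx' _ h1
      simp only at h2
      rw [side_swap] at h2
      have h3 : l * side p q x ≤ 0 := mul_nonpos_of_nonneg_of_nonpos hlt.le (by linarith)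
      linarith

theorem exists_neg {a : E2 →ᵃ[ℝ] ℝ} (ha : a.linear ≠ 0) : ∃ v, a.linear v < 0 := by
  by_contra hcon
  push Not at hcon
  apply ha
  ext v
  have h1 := hcon v
  have h2 := hcon (-v)
  rw [map_neg] at h2
  simp only [LinearMap.zero_apply]
  linarith

/-- the interior of a polygon -/
theorem interior_HSet {ι : Type*} [Finite ι] {a : ι → E2 →ᵃ[ℝ] ℝ} (ha : ∀ i, (a i).linear ≠ 0) :
    interior (HSet a) = {x | ∀ i, 0 < a i x} := by
  apply Set.Subset.antisymm
  · intro x hx i
    have hxH : x ∈ HSet a := interior_subset hx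
    apply lt_of_le_of_ne (hxH i)
    intro h0
    obtain ⟨v, hv⟩ := exists_neg (ha i)
    have hcont : Continuous fun t : ℝ => x + t • v := by fun_prop
    have hev : ∀ᶠ t : ℝ in 𝓝 0, x + t • v ∈ HSet a := by
      apply hcont.continuousAt.eventually
      have : (fun t : ℝ => x + t • v) 0 = x := by simp
      rw [this]
      exact mem_interior_iff_mem_nhds.1 hx
    obtain ⟨ε, hε, hball⟩ := Metric.eventually_nhds_iff.1 hev
    have h1 : x + (ε / 2) • v ∈ HSet a := by
      apply hball
      rw [Real.dist_eq, sub_zero, abs_of_pos (by linarith)]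
      linarith
    have h2 := h1 i
    have h3 : a i (x + (ε / 2) • v) = a i x + (ε / 2) * (a i).linear v := by
      have h4 := (a i).map_vadd x ((ε / 2) • v)
      rw [vadd_eq_add, vadd_eq_add, map_smul, smul_eq_mul, add_comm ((ε / 2) • v) x] at h4
      linarith
    rw [h3, ← h0] at h2
    have h5 : (ε / 2) * (a i).linear v < 0 := mul_neg_of_pos_of_neg (by linarith) hv
    linarith
  · apply interior_maximal
    · intro x hx i
      exact (hx i).le
    · have h : {x : E2 | ∀ i, 0 < a i x} = ⋂ i, {x | 0 < a i x} := by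
        ext x
        simp
      rw [h]
      exact isOpen_iInter_of_finite fun i => isOpen_lt continuous_const (aff_cont _)

/-- the intersection of a nondegenerate convex polygon with finitely many half planes is a convex
polygon -/
theorem isPoly_inter_HSet {C : Set E2} (hC : IsPoly C) (hne : (interior C).Nonempty)
    {ι : Type*} [Finite ι] (b : ι → E2 →ᵃ[ℝ] ℝ) : IsPoly (C ∩ HSet b) := by
  obtain ⟨n, a, -, rfl⟩ := exists_HSet hC hne
  have h : HSet a ∩ HSet b = HSet (Sum.elim a b) := by
    ext x
    simp only [mem_inter_iff, mem_HSet, Sum.forall, Sum.elim_inl, Sum.elim_inr]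
  have hb : Bornology.IsBounded (HSet a ∩ HSet b) := hC.isCompact.isBounded.subset inter_subset_left
  rw [h] at hb ⊢
  exact isPoly_HSet _ hb

theorem isPoly_inter {C C' : Set E2} (hC : IsPoly C) (hne : (interior C).Nonempty)
    (hC' : IsPoly C') (hne' : (interior C').Nonempty) : IsPoly (C ∩ C') := by
  obtain ⟨n, a, -, rfl⟩ := exists_HSet hC' hne'
  exact isPoly_inter_HSet hC hne a

end Pool.Agent.Hhelper79.SeamP
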