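import Mathlib
import Pool.Agent.Hhelper79.SeamP.HPoly

/-!
# Lines, reflections and the local structure of piecewise isometric maps (MP_6cce73_lc)
-/

set_option autoImplicit false

namespace Pool.Agent.Hhelper79.SeamP

open Set Filter Topology Metric Pool.Agent.Hhelper79.Seam

/-- two affine functions with two common zeros are proportional -/
theorem proportional {a b : E2 →ᵃ[ℝ] ℝ} (ha : a.linear ≠ 0) (hb : b.linear ≠ 0) {p q : E2}
    (hpq : p ≠ q) (hap : a p = 0) (haq : a q = 0) (hbp : b p = 0) (hbq : b q = 0) :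
    ∃ c : ℝ, c ≠ 0 ∧ ∀ x, b x = c * a x := by
  have key : ∀ {a : E2 →ᵃ[ℝ] ℝ}, a.linear ≠ 0 → a p = 0 → a q = 0 →
      ∃ l : ℝ, l ≠ 0 ∧ ∀ x, a x = l * side p q x := by
    intro a ha hap haq
    have hlin : ∀ x, a x = a.linear x - a.linear p := by
      intro x
      have h1 : a x - a p = a.linear (x - p) := by
        have := a.linearMap_vsub x p
        simpa using this.symm
      rw [map_sub] at h1
      linarith
    obtain ⟨l, hl⟩ := eq_side hpq a.linear (by
      have := hlin q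
      linarith)
    refine ⟨l, ?_, fun x => by rw [hlin, hl]⟩
    rintro rfl
    apply ha
    ext v
    have h1 := hl (v + p)
    rw [map_add] at h1
    simp only [LinearMap.zero_apply]
    linarith
  obtain ⟨l, hl, hla⟩ := key ha hap haq
  obtain ⟨k, hk, hkb⟩ := key hb hbp hbq
  refine ⟨k / l, div_ne_zero hk hl, fun x => ?_⟩
  rw [hkb, hla]
  field_simp

theorem aff_sub (a : E2 →ᵃ[ℝ] ℝ) (x y : E2) : a x - a y = a.linear (x - y) := by
  have := a.linearMap_vsub x y
  simpa using this.symm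

/-- the gradient of an affine function -/
noncomputable def grad (a : E2 →ᵃ[ℝ] ℝ) : E2 :=
  a.linear (EuclideanSpace.single 0 1) • EuclideanSpace.single 0 1 +
    a.linear (EuclideanSpace.single 1 1) • EuclideanSpace.single 1 1

theorem inner_e2 (x y : E2) : inner ℝ x y = x 0 * y 0 + x 1 * y 1 := by
  rw [PiLp.inner_apply, Fin.sum_univ_two]
  simp [mul_comm]

theorem grad_zero (a : E2 →ᵃ[ℝ] ℝ) : grad a 0 = a.linear (EuclideanSpace.single 0 1) := by
  simp [grad]

theorem grad_one (a : E2 →ᵃ[ℝ] ℝ) : grad a 1 = a.linear (EuclideanSpace.single 1 1) := by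
  simp [grad]

theorem linear_eq (a : E2 →ᵃ[ℝ] ℝ) (v : E2) : a.linear v = inner ℝ (grad a) v := by
  have hv : v = v 0 • EuclideanSpace.single 0 (1 : ℝ) + v 1 • EuclideanSpace.single 1 (1 : ℝ) := by
    apply e2_ext <;> simp
  conv_lhs => rw [hv]
  rw [map_add, map_smul, map_smul, smul_eq_mul, smul_eq_mul, inner_e2, grad_zero, grad_one]
  ring

theorem grad_ne {a : E2 →ᵃ[ℝ] ℝ} (ha : a.linear ≠ 0) : grad a ≠ 0 := by
  intro h
  apply ha
  ext v
  rw [linear_eq, h, inner_zero_left, LinearMap.zero_apply]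

theorem grad_sq_pos {a : E2 →ᵃ[ℝ] ℝ} (ha : a.linear ≠ 0) : 0 < inner ℝ (grad a) (grad a) := by
  rw [real_inner_self_eq_norm_sq]
  exact pow_pos (norm_pos_iff.2 (grad_ne ha)) 2

/-- the reflection in the line on which `a` vanishes -/
noncomputable def refl (a : E2 →ᵃ[ℝ] ℝ) : E2 →ᵃⁱ[ℝ] E2 where
  toFun x := x - (2 * a x / inner ℝ (grad a) (grad a)) • grad a
  linear := LinearMap.id - (LinearMap.toSpanSingleton ℝ E2
    ((2 / inner ℝ (grad a) (grad a)) • grad a)).comp a.linear
  map_vadd' x v := by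
    have h1 : a (v + x) = a.linear v + a x := a.map_vadd x v
    simp only [vadd_eq_add, h1, LinearMap.sub_apply, LinearMap.id_apply, LinearMap.comp_apply,
      LinearMap.toSpanSingleton_apply, smul_smul]
    rw [show (2 * (a.linear v + a x) / inner ℝ (grad a) (grad a)) =
      a.linear v * (2 / inner ℝ (grad a) (grad a)) + 2 * a x / inner ℝ (grad a) (grad a) by ring,
      add_smul]
    abel
  norm_map v := by
    simp only [LinearMap.sub_apply, LinearMap.id_apply, LinearMap.comp_apply,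
      LinearMap.toSpanSingleton_apply, smul_smul]
    by_cases ha : inner ℝ (grad a) (grad a) = 0
    · rw [ha, div_zero, mul_zero, zero_smul, sub_zero]
    · rw [← sq_eq_sq₀ (norm_nonneg _) (norm_nonneg _), @norm_sub_sq_real, inner_smul_right,
        norm_smul, mul_pow, ← real_inner_self_eq_norm_sq (grad a), linear_eq,
        real_inner_comm v (grad a), Real.norm_eq_abs, sq_abs]
      field_simp
      ring

theorem refl_apply (a : E2 →ᵃ[ℝ] ℝ) (x : E2) :
    refl a x = x - (2 * a x / inner ℝ (grad a) (grad a)) • grad a := rfl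

theorem refl_of_zero {a : E2 →ᵃ[ℝ] ℝ} {x : E2} (h : a x = 0) : refl a x = x := by
  rw [refl_apply, h]
  simp

theorem aff_refl {a : E2 →ᵃ[ℝ] ℝ} (ha : a.linear ≠ 0) (x : E2) : a (refl a x) = -a x := by
  have h1 := aff_sub a (refl a x) x
  have h2 : refl a x - x = -((2 * a x / inner ℝ (grad a) (grad a)) • grad a) := by
    rw [refl_apply]
    abel
  rw [h2, map_neg, map_smul, smul_eq_mul, linear_eq a (grad a)] at h1
  have h3 := (grad_sq_pos ha).ne'
  have h4 : 2 * a x / inner ℝ (grad a) (grad a) * inner ℝ (grad a) (grad a) = 2 * a x := by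
    field_simp
  linarith

theorem refl_refl {a : E2 →ᵃ[ℝ] ℝ} (ha : a.linear ≠ 0) (x : E2) : refl a (refl a x) = x := by
  rw [refl_apply a (refl a x), aff_refl ha, refl_apply]
  have : (2 * -a x / inner ℝ (grad a) (grad a)) = -(2 * a x / inner ℝ (grad a) (grad a)) := by
    ring
  rw [this, neg_smul]
  abel

theorem dist_refl {a : E2 →ᵃ[ℝ] ℝ} {p : E2} (hp : a p = 0) (x : E2) :
    dist (refl a x) p = dist x p := by
  conv_lhs => rw [← refl_of_zero hp]
  exact (refl a).dist_map x p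

/-- points are determined up to reflection by their distances to two points of the line -/
theorem eq_or_refl {a : E2 →ᵃ[ℝ] ℝ} (ha : a.linear ≠ 0) {p q x y : E2} (hpq : p ≠ q)
    (hp : a p = 0) (hq : a q = 0) (h1 : dist x p = dist y p) (h2 : dist x q = dist y q) :
    y = x ∨ y = refl a x := by
  have key : ∀ z w : E2, dist z w ^ 2 = (z 0 - w 0) ^ 2 + (z 1 - w 1) ^ 2 := by
    intro z w
    rw [EuclideanSpace.dist_eq, Real.sq_sqrt (by positivity), Fin.sum_univ_two]
    simp [Real.dist_eq, sq_abs]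
  have e1 : dist x p ^ 2 = dist y p ^ 2 := by rw [h1]
  have e2 : dist x q ^ 2 = dist y q ^ 2 := by rw [h2]
  rw [key, key] at e1 e2
  have hn := grad_sq_pos ha
  have hp' : a.linear (q - p) = 0 := by rw [← aff_sub, hp, hq, sub_zero]
  have hxp : a x = inner ℝ (grad a) (x - p) := by rw [← linear_eq, ← aff_sub, hp, sub_zero]
  rw [linear_eq, inner_e2] at hp'
  rw [inner_e2] at hxp hn
  simp only [PiLp.sub_apply] at hp' hxp
  set n0 := grad a 0
  set n1 := grad a 1
  -- `y - x` is a multiple of the normal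
  have h3 : (y 0 - x 0) * (q 0 - p 0) + (y 1 - x 1) * (q 1 - p 1) = 0 := by nlinarith
  have h4 : (y 0 - x 0) * ((y 0 + x 0) - 2 * p 0) + (y 1 - x 1) * ((y 1 + x 1) - 2 * p 1) = 0 := by
    nlinarith
  have hd : (q 0 - p 0) ≠ 0 ∨ (q 1 - p 1) ≠ 0 := by
    by_contra hcon
    push Not at hcon
    apply hpq
    apply e2_ext <;> linarith [hcon.1, hcon.2]
  obtain ⟨N, hN⟩ : ∃ N, N = n0 * n0 + n1 * n1 := ⟨_, rfl⟩
  have hN0 : N ≠ 0 := by
    rw [hN]
    exact hn.ne'
  have h5 : ∃ t : ℝ, q 0 - p 0 = -t * n1 ∧ q 1 - p 1 = t * n0 ∧ t ≠ 0 := by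
    refine ⟨(n0 * (q 1 - p 1) - n1 * (q 0 - p 0)) / N, ?_, ?_, ?_⟩
    · field_simp
      rw [hN]
      linear_combination n0 * hp'
    · field_simp
      rw [hN]
      linear_combination n1 * hp'
    · intro h0
      rw [div_eq_zero_iff] at h0
      rcases h0 with h0 | h0
      · have e3 : N * (q 0 - p 0) = 0 := by
          rw [hN]
          linear_combination n0 * hp' - n1 * h0
        have e4 : N * (q 1 - p 1) = 0 := by
          rw [hN]
          linear_combination n1 * hp' + n0 * h0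
        rcases hd with hd | hd
        · exact hd ((mul_eq_zero.1 e3).resolve_left hN0)
        · exact hd ((mul_eq_zero.1 e4).resolve_left hN0)
      · exact hN0 h0
  obtain ⟨t, ht0, ht1, htne⟩ := h5
  rw [ht0, ht1] at h3
  have h6 : -(y 0 - x 0) * n1 + (y 1 - x 1) * n0 = 0 := by
    have : t * (-(y 0 - x 0) * n1 + (y 1 - x 1) * n0) = 0 := by linear_combination h3
    exact (mul_eq_zero.1 this).resolve_left htne
  obtain ⟨s, hs⟩ : ∃ s, s = (n0 * (y 0 - x 0) + n1 * (y 1 - x 1)) / N := ⟨_, rfl⟩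
  have h7 : y 0 - x 0 = s * n0 := by
    rw [hs]
    field_simp
    rw [hN]
    linear_combination (-n1) * h6
  have h8 : y 1 - x 1 = s * n1 := by
    rw [hs]
    field_simp
    rw [hN]
    linear_combination n0 * h6
  have h9 : s * (s * N + 2 * a x) = 0 := by
    rw [hxp, hN]
    have e5 : y 0 = x 0 + s * n0 := by linarith
    have e6 : y 1 = x 1 + s * n1 := by linarith
    rw [e5, e6] at h4
    linear_combination h4
  rcases mul_eq_zero.1 h9 with h10 | h10
  · left
    rw [h10] at h7 h8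
    apply e2_ext <;> linarith
  · right
    have h11 : s = -(2 * a x / N) := by
      field_simp
      linarith
    rw [refl_apply, inner_e2]
    change y = x - (2 * a x / (n0 * n0 + n1 * n1)) • grad a
    rw [← hN]
    apply e2_ext
    · simp only [PiLp.sub_apply, PiLp.smul_apply, smul_eq_mul]
      have : y 0 = x 0 + s * n0 := by linarith
      rw [this, h11]
      ring
    · simp only [PiLp.sub_apply, PiLp.smul_apply, smul_eq_mul]
      have : y 1 = x 1 + s * n1 := by linarith
      rw [this, h11]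
      ring

theorem exists_pos {a : E2 →ᵃ[ℝ] ℝ} (ha : a.linear ≠ 0) (w : E2) {r : ℝ} (hr : 0 < r) :
    ∃ x ∈ ball w r, a w < a x := by
  obtain ⟨v, hv⟩ := exists_neg ha
  have hcont : Continuous fun t : ℝ => w - t • v := by fun_prop
  have hev : ∀ᶠ t : ℝ in 𝓝 0, w - t • v ∈ ball w r := by
    apply hcont.continuousAt.eventually
    have : (fun t : ℝ => w - t • v) 0 = w := by simp
    rw [this]
    exact ball_mem_nhds w hr
  obtain ⟨ε, hε, hball⟩ := Metric.eventually_nhds_iff.1 hev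
  refine ⟨w - (ε / 2) • v, hball ?_, ?_⟩
  · rw [Real.dist_eq, sub_zero, abs_of_pos (by linarith)]
    linarith
  · have h1 := aff_sub a (w - (ε / 2) • v) w
    have h2 : w - (ε / 2) • v - w = -((ε / 2) • v) := by abel
    rw [h2, map_neg, map_smul, smul_eq_mul] at h1
    have h3 : (ε / 2) * a.linear v < 0 := mul_neg_of_pos_of_neg (by linarith) hv
    linarith

theorem mem_kernel {a : E2 →ᵃ[ℝ] ℝ} (ha : a.linear ≠ 0) {d v : E2} (hd : d ≠ 0)
    (hd0 : a.linear d = 0) (hv : a.linear v = 0) : ∃ α : ℝ, v = α • d := by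
  rw [linear_eq, inner_e2] at hd0 hv
  have hn := grad_sq_pos ha
  rw [inner_e2] at hn
  obtain ⟨n0, hn0⟩ : ∃ n0, n0 = grad a 0 := ⟨_, rfl⟩
  obtain ⟨n1, hn1⟩ : ∃ n1, n1 = grad a 1 := ⟨_, rfl⟩
  rw [← hn0, ← hn1] at hd0 hv hn
  have hD : d 0 * d 0 + d 1 * d 1 ≠ 0 := by
    intro h0
    apply hd
    have h1 : d 0 = 0 := by nlinarith [mul_self_nonneg (d 0), mul_self_nonneg (d 1)]
    have h2 : d 1 = 0 := by nlinarith [mul_self_nonneg (d 0), mul_self_nonneg (d 1)]
    apply e2_ext
    · simpa using h1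
    · simpa using h2
  obtain ⟨D, hDD⟩ : ∃ D, D = d 0 * d 0 + d 1 * d 1 := ⟨_, rfl⟩
  rw [← hDD] at hD
  -- the determinant vanishes
  have hdet : v 0 * d 1 - v 1 * d 0 = 0 := by
    have h1 : n0 * (v 0 * d 1 - v 1 * d 0) = 0 := by
      linear_combination d 1 * hv - v 1 * hd0
    have h2 : n1 * (v 0 * d 1 - v 1 * d 0) = 0 := by
      linear_combination v 0 * hd0 - d 0 * hv
    by_contra hne
    have h3 := (mul_eq_zero.1 h1).resolve_right hne
    have h4 := (mul_eq_zero.1 h2).resolve_right hne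
    rw [h3, h4] at hn
    linarith
  refine ⟨(v 0 * d 0 + v 1 * d 1) / D, ?_⟩
  apply e2_ext
  · simp only [PiLp.smul_apply, smul_eq_mul]
    field_simp
    rw [hDD]
    linear_combination d 1 * hdet
  · simp only [PiLp.smul_apply, smul_eq_mul]
    field_simp
    rw [hDD]
    linear_combination (-d 0) * hdet

section

variable {X : Type*} [NormedAddCommGroup X] [NormedSpace ℝ X]

theorem iso_sub (g : E2 →ᵃⁱ[ℝ] X) (x p : E2) : g x = g p + g.toAffineMap.linear (x - p) := by
  have h := g.toAffineMap.linearMap_vsub x p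
  have h' : g.toAffineMap.linear (x - p) = g x - g p := by simpa using h
  rw [h']
  abel

/-- placements which agree at three points not on a line are equal -/
theorem eq_of_three {a : E2 →ᵃ[ℝ] ℝ} {p q w : E2} (hpq : p ≠ q) (hp : a p = 0) (hq : a q = 0)
    (hw : a w ≠ 0) {g h : E2 →ᵃⁱ[ℝ] X} (hgp : g p = h p) (hgq : g q = h q) (hgw : g w = h w) :
    g = h := by
  have ha : a.linear ≠ 0 := by
    intro h0
    have := aff_sub a w p
    rw [h0, LinearMap.zero_apply, hp, sub_zero] at this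
    exact hw this
  have hlq : g.toAffineMap.linear (q - p) = h.toAffineMap.linear (q - p) := by
    have h1 := iso_sub g q p
    have h2 := iso_sub h q p
    rw [hgq, hgp, h2] at h1
    exact (add_left_cancel h1).symm
  have hlw : g.toAffineMap.linear (w - p) = h.toAffineMap.linear (w - p) := by
    have h1 := iso_sub g w p
    have h2 := iso_sub h w p
    rw [hgw, hgp, h2] at h1
    exact (add_left_cancel h1).symm
  have hwp : a.linear (w - p) = a w := by rw [← aff_sub, hp, sub_zero]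
  have hqp : a.linear (q - p) = 0 := by rw [← aff_sub, hp, hq, sub_zero]
  ext1 x
  obtain ⟨α, hα⟩ := mem_kernel ha (d := q - p) (v := (x - p) - (a.linear (x - p) / a w) • (w - p))
    (sub_ne_zero.2 (Ne.symm hpq)) hqp (by
      rw [map_sub, map_smul, hwp, smul_eq_mul]
      field_simp
      ring)
  have hx : x - p = α • (q - p) + (a.linear (x - p) / a w) • (w - p) := by
    rw [← hα]
    abel
  rw [iso_sub g x p, iso_sub h x p, hx, map_add, map_add, map_smul, map_smul, map_smul, map_smul,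
    hlq, hlw, hgp]

theorem dist_eq_of_eq {g h : E2 →ᵃⁱ[ℝ] X} {x y p : E2} (hxy : g x = h y) (hp : g p = h p) :
    dist x p = dist y p := by
  rw [← g.dist_map, ← h.dist_map, hxy, hp]

/-- two placements which agree on the line, with a common value on the two sides, are mirror
images of each other -/
theorem mirror {a : E2 →ᵃ[ℝ] ℝ} (ha : a.linear ≠ 0) {p q : E2} (hpq : p ≠ q) (hp : a p = 0)
    (hq : a q = 0) {g h : E2 →ᵃⁱ[ℝ] X} (hgp : g p = h p) (hgq : g q = h q) {x y : E2}
    (hx : 0 < a x) (hy : a y < 0) (hxy : g x = h y) : h = g.comp (refl a) := by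
  have h1 := eq_or_refl ha hpq hp hq (dist_eq_of_eq hxy hgp) (dist_eq_of_eq hxy hgq)
  rcases h1 with h1 | h1
  · rw [h1] at hy
    linarith
  · refine eq_of_three hpq hp hq hy.ne ?_ ?_ ?_
    · change h p = g (refl a p)
      rw [refl_of_zero hp, hgp]
    · change h q = g (refl a q)
      rw [refl_of_zero hq, hgq]
    · change h y = g (refl a y)
      rw [h1, refl_refl ha, ← h1, hxy]

end

theorem iso_surj (g : E2 →ᵃⁱ[ℝ] E2) (y : E2) : ∃ x, g x = y := by
  have := (g.toAffineIsometryEquiv rfl).surjective y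
  simpa using this

/-- two isometries of the plane which agree on a line are equal or mirror images -/
theorem planar_mirror {a : E2 →ᵃ[ℝ] ℝ} (ha : a.linear ≠ 0) {p q : E2} (hpq : p ≠ q) (hp : a p = 0)
    (hq : a q = 0) {g h : E2 →ᵃⁱ[ℝ] E2} (hgp : g p = h p) (hgq : g q = h q) :
    h = g ∨ h = g.comp (refl a) := by
  obtain ⟨y, -, hy⟩ := exists_pos ha p (r := 1) one_pos
  rw [hp] at hy
  obtain ⟨x, hx⟩ := iso_surj g (h y)
  have h1 := eq_or_refl ha hpq hp hq (dist_eq_of_eq hx hgp).symm (dist_eq_of_eq hx hgq).symm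
  rcases h1 with h1 | h1
  · left
    refine eq_of_three hpq hp hq hy.ne' hgp.symm hgq.symm ?_
    rw [← hx, h1]
  · right
    refine eq_of_three hpq hp hq hy.ne' ?_ ?_ ?_
    · change h p = g (refl a p)
      rw [refl_of_zero hp, hgp]
    · change h q = g (refl a q)
      rw [refl_of_zero hq, hgq]
    · change h y = g (refl a y)
      rw [← h1, hx]

/-! ### Pieces -/

/-- a closed polyhedral piece of the plane -/
def IsPc (t : Set E2) : Prop :=
  ∃ (n : ℕ) (a : Fin n → E2 →ᵃ[ℝ] ℝ), (∀ i, (a i).linear ≠ 0) ∧ t = HSet a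

theorem IsPc.isClosed {t : Set E2} (h : IsPc t) : IsClosed t := by
  obtain ⟨n, a, -, rfl⟩ := h
  exact isClosed_HSet a

theorem IsPc.convex {t : Set E2} (h : IsPc t) : Convex ℝ t := by
  obtain ⟨n, a, -, rfl⟩ := h
  exact convex_HSet a

theorem IsPc.of_finite {ι : Type*} [Finite ι] (a : ι → E2 →ᵃ[ℝ] ℝ) (ha : ∀ i, (a i).linear ≠ 0) :
    IsPc (HSet a) := by
  obtain ⟨n, ⟨e⟩⟩ := Finite.exists_equiv_fin ι
  refine ⟨n, fun i => a (e.symm i), fun i => ha _, ?_⟩
  ext x
  constructor
  · intro h i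
    exact h _
  · intro h i
    have := h (e i)
    simpa using this

theorem IsPc.inter {s t : Set E2} (hs : IsPc s) (ht : IsPc t) : IsPc (s ∩ t) := by
  obtain ⟨n, a, ha, rfl⟩ := hs
  obtain ⟨m, b, hb, rfl⟩ := ht
  have h : HSet a ∩ HSet b = HSet (Sum.elim a b) := by
    ext x
    simp only [mem_inter_iff, mem_HSet, Sum.forall, Sum.elim_inl, Sum.elim_inr]
  rw [h]
  apply IsPc.of_finite
  rintro (i | i)
  · exact ha i
  · exact hb i

theorem isPc_univ : IsPc univ := by
  refine ⟨0, fun i => i.elim0, fun i => i.elim0, ?_⟩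
  ext x
  simp [HSet]

theorem comp_linear_ne {a : E2 →ᵃ[ℝ] ℝ} (ha : a.linear ≠ 0) (g : E2 →ᵃⁱ[ℝ] E2) :
    (a.comp g.toAffineMap).linear ≠ 0 := by
  intro h0
  apply ha
  ext v
  obtain ⟨x, hx⟩ := iso_surj g (v + g 0)
  have h1 := iso_sub g x 0
  rw [hx] at h1
  have h2 : v = g.toAffineMap.linear (x - 0) := by
    rw [add_comm] at h1
    exact add_left_cancel h1
  have h3 := LinearMap.congr_fun h0 (x - 0)
  rw [AffineMap.comp_linear, LinearMap.comp_apply, LinearMap.zero_apply] at h3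
  rw [h2, h3, LinearMap.zero_apply]

theorem IsPc.preimage {t : Set E2} (ht : IsPc t) (g : E2 →ᵃⁱ[ℝ] E2) : IsPc (g ⁻¹' t) := by
  obtain ⟨n, a, ha, rfl⟩ := ht
  exact ⟨n, fun i => (a i).comp g.toAffineMap, fun i => comp_linear_ne (ha i) g, rfl⟩

theorem IsPoly.isPc {C : Set E2} (hC : IsPoly C) (hne : (interior C).Nonempty) : IsPc C := by
  obtain ⟨n, a, ha, h⟩ := exists_HSet hC hne
  exact ⟨n, a, ha, h⟩

theorem IsPc.isPoly {C : Set E2} (hC : IsPc C) (hb : Bornology.IsBounded C) : IsPoly C := by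
  obtain ⟨n, a, -, rfl⟩ := hC
  exact isPoly_HSet a hb

/-- near a point off a finite set, finitely many pieces are empty, everything, half planes with a
common boundary line, or the line -/
theorem local_pc (T : Finset (Set E2)) (hT : ∀ t ∈ T, IsPc t) :
    ∃ (L : Finset (E2 →ᵃ[ℝ] ℝ)) (E : Set E2), (∀ a ∈ L, a.linear ≠ 0) ∧ E.Finite ∧ ∀ w, w ∉ E →
      (∀ t ∈ T, ∀ᶠ x in 𝓝 w, (x ∈ t ↔ w ∈ t)) ∨
      ∃ a ∈ L, a w = 0 ∧ ∀ t ∈ T, (∀ᶠ x in 𝓝 w, x ∉ t) ∨
        ∃ P N : Prop, ∀ᶠ x in 𝓝 w, (x ∈ t ↔ (P → 0 ≤ a x) ∧ (N → a x ≤ 0)) := by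
  classical
  choose! n a ha ht using hT
  have hmemt : ∀ t ∈ T, ∀ x, x ∈ t ↔ ∀ i, 0 ≤ a t i x := by
    intro t htT x
    have h1 := ht t htT
    constructor
    · intro h
      rw [h1] at h
      exact h
    · intro h
      rw [h1]
      exact h
  set L : Finset (E2 →ᵃ[ℝ] ℝ) := T.biUnion fun t => Finset.univ.image (a t) with hL
  have hmem : ∀ t ∈ T, ∀ i, a t i ∈ L := by
    intro t htT i
    rw [hL, Finset.mem_biUnion]
    exact ⟨t, htT, Finset.mem_image_of_mem _ (Finset.mem_univ i)⟩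
  have hL0 : ∀ b ∈ L, b.linear ≠ 0 := by
    intro b hb
    rw [hL, Finset.mem_biUnion] at hb
    obtain ⟨t, htT, hb⟩ := hb
    obtain ⟨i, -, rfl⟩ := Finset.mem_image.1 hb
    exact ha t htT i
  refine ⟨L, ⋃ b ∈ L, ⋃ b' ∈ L, {x | b x = 0 ∧ b' x = 0 ∧ {y | b y = 0 ∧ b' y = 0}.Subsingleton},
    hL0, ?_, ?_⟩
  · refine Set.Finite.biUnion L.finite_toSet fun b _ => ?_
    refine Set.Finite.biUnion L.finite_toSet fun b' _ => ?_
    refine Set.Subsingleton.finite ?_
    intro x hx y hy
    exact hx.2.2 ⟨hx.1, hx.2.1⟩ ⟨hy.1, hy.2.1⟩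
  intro w hw
  have hsign : ∀ b : E2 →ᵃ[ℝ] ℝ, b w ≠ 0 → ∀ᶠ x in 𝓝 w, (0 ≤ b x ↔ 0 ≤ b w) := by
    intro b hb
    rcases lt_or_gt_of_ne hb with hlt | hlt
    · filter_upwards [(aff_cont b).continuousAt.eventually (gt_mem_nhds hlt)] with x hx
      exact ⟨fun h => absurd hx (not_lt.2 h), fun h => absurd hlt (not_lt.2 h)⟩
    · filter_upwards [(aff_cont b).continuousAt.eventually (lt_mem_nhds hlt)] with x hx
      exact ⟨fun _ => hlt.le, fun _ => hx.le⟩
  by_cases h0 : ∀ b ∈ L, b w ≠ 0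
  · left
    intro t htT
    have h1 : ∀ᶠ x in 𝓝 w, ∀ i, (0 ≤ a t i x ↔ 0 ≤ a t i w) :=
      Filter.eventually_all.2 fun i => hsign _ (h0 _ (hmem t htT i))
    filter_upwards [h1] with x hx
    rw [hmemt t htT, hmemt t htT]
    exact forall_congr' hx
  · right
    push Not at h0
    obtain ⟨b, hbL, hbw⟩ := h0
    refine ⟨b, hbL, hbw, fun t htT => ?_⟩
    have hprop : ∀ b' ∈ L, b' w = 0 → ∃ c : ℝ, c ≠ 0 ∧ ∀ x, b' x = c * b x := by
      intro b' hb' hbw'
      have h1 : ¬ {y | b y = 0 ∧ b' y = 0}.Subsingleton := by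
        intro hs
        apply hw
        simp only [mem_iUnion]
        exact ⟨b, hbL, b', hb', hbw, hbw', hs⟩
      rw [Set.not_subsingleton_iff] at h1
      obtain ⟨p, hp, q, hq, hpq⟩ := h1
      exact proportional (hL0 b hbL) (hL0 b' hb') hpq hp.1 hq.1 hp.2 hq.2
    by_cases hneg : ∃ i, a t i w < 0
    · left
      obtain ⟨i, hi⟩ := hneg
      filter_upwards [(aff_cont (a t i)).continuousAt.eventually (gt_mem_nhds hi)] with x hx hxt
      rw [hmemt t htT] at hxt
      exact absurd hx (not_lt.2 (hxt i))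
    · right
      push Not at hneg
      refine ⟨∃ i, ∃ c : ℝ, 0 < c ∧ ∀ x, a t i x = c * b x, ∃ i, ∃ c : ℝ, c < 0 ∧
        ∀ x, a t i x = c * b x, ?_⟩
      have h1 : ∀ᶠ x in 𝓝 w, ∀ i, a t i w ≠ 0 → (0 ≤ a t i x ↔ 0 ≤ a t i w) := by
        rw [Filter.eventually_all]
        intro i
        by_cases hi : a t i w = 0
        · exact Filter.Eventually.of_forall fun x h => absurd hi h
        · filter_upwards [hsign _ hi] with x hx _
          exact hx
      filter_upwards [h1] with x hx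
      rw [hmemt t htT]
      constructor
      · intro h
        constructor
        · rintro ⟨i, c, hc, hic⟩
          have := h i
          rw [hic] at this
          exact (mul_nonneg_iff_of_pos_left hc).1 this
        · rintro ⟨i, c, hc, hic⟩
          have := h i
          rw [hic] at this
          by_contra hcon
          push Not at hcon
          have := mul_neg_of_neg_of_pos hc hcon
          linarith
      · rintro ⟨hP, hN⟩ i
        by_cases hi : a t i w = 0
        · obtain ⟨c, hc, hic⟩ := hprop _ (hmem t htT i) hi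
          rw [hic]
          rcases lt_or_gt_of_ne hc with hlt | hlt
          · exact mul_nonneg_of_nonpos_of_nonpos hlt.le (hN ⟨i, c, hlt, hic⟩)
          · exact mul_nonneg hlt.le (hP ⟨i, c, hlt, hic⟩)
        · exact (hx i hi).2 (hneg i)

end Pool.Agent.Hhelper79.SeamP
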